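import Pool.Agent.H49Z.Med.Main2

set_option autoImplicit false

namespace Pool.Agent.Results.MP_bced1d_lc.ASoficNotSFT

open Pool.Agent.H49Z.Med

/-- There are an infinite group `G = ⟨s₀, …, s_{r-1} | R⟩` with a recursively enumerable set `R` of
relators and a nonempty sofic `G`-subshift `Y` whose Medvedev degree is not the Medvedev degree of
any `G`-subshift of finite type (so in particular of no SFT extension of `Y`). -/
theorem result : ∃ (r : ℕ) (R : Set (Word r)), REPred (· ∈ R) ∧ Infinite (Grp R) ∧
    ∃ (l : ℕ) (Y : Set (Grp R → Fin l)), IsSofic Y ∧ Y.Nonempty ∧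
      ∀ e : ℕ → Word r, Computable e → Function.Surjective e →
        ∀ (k : ℕ) (X : Set (Grp R → Fin k)), IsSFT X → ¬ MedEquiv (hat R e X) (hat R e Y) :=
  main_sofic

end Pool.Agent.Results.MP_bced1d_lc.ASoficNotSFT
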